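import Pool.Agent.helper38.OB.Spec

/-!
# Row ELI: elimination of one variable
-/

set_option autoImplicit false

namespace Pool.Agent.OB

open Finset

theorem ELI_prod {j : ℕ} (V : Fin j → Finset ℕ) (w : ℕ → ℝ) (i0 : Fin j) (y0 : ℕ) :
    ∑ z ∈ Fintype.piFinset (Function.update V i0 {y0}), ∏ i ∈ Finset.univ.erase i0, w (z i) =
      ∏ i ∈ Finset.univ.erase i0, ∑ y ∈ V i, w y := by
  classical
  have h1 : ∀ z : Fin j → ℕ, ∏ i ∈ Finset.univ.erase i0, w (z i) = ∏ i, (if i = i0 then (1 : ℝ) else w (z i)) := by
    intro z
    rw [← Finset.mul_prod_erase Finset.univ _ (Finset.mem_univ i0), if_pos rfl, one_mul]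
    exact Finset.prod_congr rfl fun i hi => by rw [if_neg (Finset.ne_of_mem_erase hi)]
  simp only [h1]
  have h2 := Finset.prod_univ_sum (Function.update V i0 {y0}) (fun i y => if i = i0 then (1 : ℝ) else w y)
  rw [← h2, ← Finset.mul_prod_erase Finset.univ _ (Finset.mem_univ i0)]
  simp only [Function.update_self, Finset.sum_singleton, if_true, one_mul]
  refine Finset.prod_congr rfl fun i hi => ?_
  have hne := Finset.ne_of_mem_erase hi
  rw [Function.update_of_ne hne]
  exact Finset.sum_congr rfl fun y _ => by rw [if_neg hne]

theorem ELI : ELI_stmt := by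
  classical
  intro j V w i0 P _ p M hw hp hM hV hP
  have hR : 0 ≤ ∏ i ∈ Finset.univ.erase i0, ∑ y ∈ V i, w y :=
    Finset.prod_nonneg fun i _ => Finset.sum_nonneg fun y _ => hw y
  rcases (V i0).eq_empty_or_nonempty with hemp | ⟨y0, hy0⟩
  · have h1 : Fintype.piFinset V = ∅ := by
      ext x
      simp only [Fintype.mem_piFinset, Finset.notMem_empty, iff_false]
      intro h
      have := h i0
      rw [hemp] at this
      exact absurd this (Finset.notMem_empty _)
    rw [h1, Finset.filter_empty, Finset.sum_empty]
    positivity
  · have hmaps : ∀ x ∈ (Fintype.piFinset V).filter P, Function.update x i0 y0 ∈ Fintype.piFinset (Function.update V i0 {y0}) := by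
      intro x hx
      have hx1 := Fintype.mem_piFinset.1 (Finset.mem_filter.1 hx).1
      rw [Fintype.mem_piFinset]
      intro i
      by_cases hi : i = i0
      · subst hi
        simp
      · rw [Function.update_of_ne hi, Function.update_of_ne hi]
        exact hx1 i
    rw [← Finset.sum_fiberwise_of_maps_to hmaps]
    have hz : ∀ z ∈ Fintype.piFinset (Function.update V i0 {y0}),
        ∑ x ∈ (Fintype.piFinset V).filter P with Function.update x i0 y0 = z, ∏ i, w (x i) ≤
          M * p * ∏ i ∈ Finset.univ.erase i0, w (z i) := by
      intro z hz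
      have hz1 : z ∈ Fintype.piFinset V := by
        rw [Fintype.mem_piFinset] at hz ⊢
        intro i
        have h1 := hz i
        by_cases hi : i = i0
        · subst hi
          rw [Function.update_self, Finset.mem_singleton] at h1
          rw [h1]
          exact hy0
        · rwa [Function.update_of_ne hi] at h1
      have hterm : ∀ x ∈ ((Fintype.piFinset V).filter P).filter (fun x => Function.update x i0 y0 = z),
          ∏ i, w (x i) ≤ p * ∏ i ∈ Finset.univ.erase i0, w (z i) := by
        intro x hx
        obtain ⟨hx1, hx2⟩ := Finset.mem_filter.1 hx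
        have hx3 := Fintype.mem_piFinset.1 (Finset.mem_filter.1 hx1).1
        rw [← Finset.mul_prod_erase Finset.univ _ (Finset.mem_univ i0)]
        have h2 : ∏ i ∈ Finset.univ.erase i0, w (x i) = ∏ i ∈ Finset.univ.erase i0, w (z i) := by
          refine Finset.prod_congr rfl fun i hi => ?_
          rw [← hx2, Function.update_of_ne (Finset.ne_of_mem_erase hi)]
        rw [h2]
        exact mul_le_mul_of_nonneg_right (hV _ (hx3 i0)) (Finset.prod_nonneg fun i _ => hw _)
      have hcard : ((((Fintype.piFinset V).filter P).filter (fun x => Function.update x i0 y0 = z)).card : ℝ) ≤ M := by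
        refine le_trans ?_ (hP z hz1)
        rw [Nat.cast_le]
        refine Finset.card_le_card_of_injOn (fun x => x i0) ?_ ?_
        · intro x hx
          obtain ⟨hx1, hx2⟩ := Finset.mem_filter.1 (Finset.mem_coe.1 hx)
          obtain ⟨hx3, hx4⟩ := Finset.mem_filter.1 hx1
          have h3 : Function.update z i0 (x i0) = x := by
            rw [← hx2, Function.update_idem, Function.update_eq_self]
          exact Finset.mem_coe.2 (Finset.mem_filter.2 ⟨Fintype.mem_piFinset.1 hx3 i0, by
            change P (Function.update z i0 (x i0))
            rw [h3]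
            exact hx4⟩)
        · intro x hx x' hx' hxx
          have hx2 := (Finset.mem_filter.1 (Finset.mem_coe.1 hx)).2
          have hx2' := (Finset.mem_filter.1 (Finset.mem_coe.1 hx')).2
          have h3 : Function.update z i0 (x i0) = x := by
            rw [← hx2, Function.update_idem, Function.update_eq_self]
          have h3' : Function.update z i0 (x' i0) = x' := by
            rw [← hx2', Function.update_idem, Function.update_eq_self]
          have h4 : x i0 = x' i0 := hxx
          rw [← h3, ← h3', h4]
      refine (Finset.sum_le_card_nsmul _ _ _ hterm).trans ?_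
      rw [nsmul_eq_mul, mul_assoc]
      exact mul_le_mul_of_nonneg_right hcard (mul_nonneg hp (Finset.prod_nonneg fun i _ => hw _))
    refine (Finset.sum_le_sum hz).trans ?_
    rw [← Finset.mul_sum, ELI_prod]

end Pool.Agent.OB
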