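import Pool.Agent.helper38.OB.Spec

/-!
# Row QJB: pairs of `j`-tuples with nearly equal sums
-/

set_option autoImplicit false

namespace Pool.Agent.OB

open Finset

/-- the tuple with entries `p.1`, `z` (sign `1`) and `p.2`, `z'` (sign `-1`) -/
def QJB_g {j m : ℕ} (p : (Fin j → ℕ) × (Fin j → ℕ)) (z z' : Fin m → ℕ) : (Fin j ⊕ Fin m) ⊕ (Fin j ⊕ Fin m) → ℕ :=
  Sum.elim (Sum.elim p.1 z) (Sum.elim p.2 z')

/-- the signs -/
def QJB_e {j m : ℕ} : (Fin j ⊕ Fin m) ⊕ (Fin j ⊕ Fin m) → ℤ := Sum.elim (fun _ => 1) (fun _ => -1)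

theorem QJB_mem {j m n : ℕ} (A : Set ℕ) (N : ℕ) (σ : Fin n ≃ (Fin j ⊕ Fin m) ⊕ (Fin j ⊕ Fin m))
    (p : (Fin j → ℕ) × (Fin j → ℕ)) (hp : p ∈ Qj A j N) (z z' : Fin m → ℕ)
    (hz : ∀ i, z i ∈ A ∧ z i ≤ N ∧ ∀ l, z i ≠ p.2 l) (hz' : ∀ i, z' i ∈ A ∧ z' i ≤ N ∧ ∀ l, z' i ≠ p.1 l)
    (hzz : ∀ i l, z i ≠ z' l) :
    (fun i => QJB_g p z z' (σ i)) ∈ Tup A (fun i => QJB_e (σ i)) fun t => |t| ≤ ((m + 1) * N : ℕ) := by
  obtain ⟨h1, h2, h3, h4⟩ := hp
  refine ⟨fun i => ?_, fun i l hil => ?_, ?_⟩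
  · have key0 : ∀ s : (Fin j ⊕ Fin m) ⊕ (Fin j ⊕ Fin m), QJB_g p z z' s ∈ A := by
      rintro ((a | a) | (a | a))
      · exact h1 a
      · exact (hz a).1
      · exact h2 a
      · exact (hz' a).1
    exact key0 (σ i)
  · have key : ∀ s t : (Fin j ⊕ Fin m) ⊕ (Fin j ⊕ Fin m), (QJB_e s ≠ QJB_e t) → QJB_g p z z' s ≠ QJB_g p z z' t := by
      rintro ((a | a) | (a | a)) ((b | b) | (b | b)) hst
      · exact absurd rfl hst
      · exact absurd rfl hst
      · exact h3 a b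
      · exact fun h => (hz' b).2.2 a h.symm
      · exact absurd rfl hst
      · exact absurd rfl hst
      · exact (hz a).2.2 b
      · exact hzz a b
      · exact fun h => h3 b a h.symm
      · exact fun h => (hz b).2.2 a h.symm
      · exact absurd rfl hst
      · exact absurd rfl hst
      · exact (hz' a).2.2 b
      · exact fun h => hzz b a h.symm
      · exact absurd rfl hst
      · exact absurd rfl hst
    exact key _ _ hil
  · have h5 : ∑ i, QJB_e (σ i) * ((QJB_g p z z' (σ i) : ℕ) : ℤ) =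
        ((∑ i, (p.1 i : ℤ)) - ∑ i, (p.2 i : ℤ)) + ((∑ i, (z i : ℤ)) - ∑ i, (z' i : ℤ)) := by
      rw [Equiv.sum_comp σ (fun s => QJB_e s * ((QJB_g p z z' s : ℕ) : ℤ))]
      simp only [Fintype.sum_sum_type, QJB_e, QJB_g, Sum.elim_inl, Sum.elim_inr, one_mul, neg_mul, Finset.sum_neg_distrib]
      ring
    have h6 : ∀ y : Fin m → ℕ, (∀ i, y i ≤ N) → 0 ≤ ∑ i, (y i : ℤ) ∧ ∑ i, (y i : ℤ) ≤ m * N := by
      intro y hy
      refine ⟨Finset.sum_nonneg fun i _ => Int.natCast_nonneg _, ?_⟩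
      have := Finset.sum_le_sum (s := Finset.univ) fun (i : Fin m) _ => (show (y i : ℤ) ≤ N by exact_mod_cast hy i)
      simpa using this
    obtain ⟨a1, a2⟩ := h6 z fun i => (hz i).2.1
    obtain ⟨b1, b2⟩ := h6 z' fun i => (hz' i).2.1
    change |∑ i, QJB_e (σ i) * ((QJB_g p z z' (σ i) : ℕ) : ℤ)| ≤ _
    rw [h5]
    push_cast
    rw [abs_le] at h4 ⊢
    constructor <;> nlinarith [h4.1, h4.2]

/-- a set with at least `s` elements contains the values of an injection of `Fin s` -/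
theorem QJB_emb (F : Finset ℕ) (s : ℕ) (h : s ≤ F.card) : ∃ f : Fin s → ℕ, Function.Injective f ∧ ∀ i, f i ∈ F := by
  have : Nonempty (Fin s ↪ F) := by
    apply Function.Embedding.nonempty_of_card_le
    simpa using h
  obtain ⟨g⟩ := this
  exact ⟨fun i => (g i : ℕ), fun a b hab => g.injective (Subtype.ext hab), fun i => (g i).2⟩

theorem QJB_count {j m n s : ℕ} (hn : n = (j + m) + (j + m)) (A : Set ℕ) (N K : ℕ) (hN : 1 ≤ N)
    (hK : ∀ e : Fin n → ℤ, Sg e → ∀ N : ℕ, 1 ≤ N →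
    (Tup A e fun t => |t| ≤ N).Finite ∧ (Tup A e fun t => |t| ≤ N).ncard ≤ K * N)
    (F1 F2 : Finset ℕ) (hF1 : ∀ x ∈ F1, x ∈ A ∧ x ≤ N) (hF2 : ∀ x ∈ F2, x ∈ A ∧ x ≤ N) (hdis : Disjoint F1 F2)
    (hs : 1 ≤ s) (hs1 : s + 2 * j ≤ F1.card) (hs2 : s + 2 * j ≤ F2.card) :
    (Qj A j N).Finite ∧ (Qj A j N).ncard * (s ^ m * s ^ m) ≤ K * ((m + 1) * N) := by
  classical
  obtain ⟨σ⟩ : Nonempty (Fin n ≃ (Fin j ⊕ Fin m) ⊕ (Fin j ⊕ Fin m)) := by
    rw [← Fintype.card_eq]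
    simp [hn]
  have hsg : Sg (fun i => QJB_e (σ i)) := by
    intro i
    rcases hσ : σ i with a | a
    · left; simp [QJB_e, hσ]
    · right; simp [QJB_e, hσ]
  obtain ⟨hfin, hcard⟩ := hK _ hsg ((m + 1) * N) (by nlinarith)
  -- the excluded entries
  let B : (Fin j → ℕ) × (Fin j → ℕ) → Finset ℕ := fun p => Finset.univ.image p.1 ∪ Finset.univ.image p.2
  have hB : ∀ p, (B p).card ≤ 2 * j := by
    intro p
    have h1 : (Finset.univ.image p.1).card ≤ j := by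
      simpa using (Finset.card_image_le (s := (Finset.univ : Finset (Fin j))) (f := p.1))
    have h2 : (Finset.univ.image p.2).card ≤ j := by
      simpa using (Finset.card_image_le (s := (Finset.univ : Finset (Fin j))) (f := p.2))
    have h3 := Finset.card_union_le (Finset.univ.image p.1) (Finset.univ.image p.2)
    simp only [B]
    omega
  have hemb : ∀ (F : Finset ℕ), s + 2 * j ≤ F.card → ∀ p, ∃ f : Fin s → ℕ, Function.Injective f ∧ ∀ i, f i ∈ F \ B p := by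
    intro F hF p
    refine QJB_emb _ s ?_
    have h1 := Finset.le_card_sdiff (B p) F
    have h2 := hB p
    omega
  choose f hf1 hf2 using hemb F1 hs1
  choose f' hf1' hf2' using hemb F2 hs2
  have hnot : ∀ p x, x ∉ B p → (∀ l, x ≠ p.1 l) ∧ ∀ l, x ≠ p.2 l := by
    intro p x hx
    simp only [B, Finset.mem_union, Finset.mem_image, Finset.mem_univ, true_and, not_or, not_exists] at hx
    exact ⟨fun l h => hx.1 l h.symm, fun l h => hx.2 l h.symm⟩
  let Φ : ((Fin j → ℕ) × (Fin j → ℕ)) × ((Fin m → Fin s) × (Fin m → Fin s)) → (Fin n → ℕ) := fun q i =>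
    QJB_g q.1 (fun a => f q.1 (q.2.1 a)) (fun a => f' q.1 (q.2.2 a)) (σ i)
  have hmaps : ∀ q ∈ Qj A j N ×ˢ (Set.univ : Set ((Fin m → Fin s) × (Fin m → Fin s))),
      Φ q ∈ Tup A (fun i => QJB_e (σ i)) fun t => |t| ≤ ((m + 1) * N : ℕ) := by
    rintro q ⟨hq, -⟩
    refine QJB_mem A N σ q.1 hq _ _ (fun i => ?_) (fun i => ?_) fun i l => ?_
    · obtain ⟨h1, h2⟩ := Finset.mem_sdiff.1 (hf2 q.1 (q.2.1 i))
      exact ⟨(hF1 _ h1).1, (hF1 _ h1).2, (hnot _ _ h2).2⟩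
    · obtain ⟨h1, h2⟩ := Finset.mem_sdiff.1 (hf2' q.1 (q.2.2 i))
      exact ⟨(hF2 _ h1).1, (hF2 _ h1).2, (hnot _ _ h2).1⟩
    · intro h
      have h1 := (Finset.mem_sdiff.1 (hf2 q.1 (q.2.1 i))).1
      have h2 := (Finset.mem_sdiff.1 (hf2' q.1 (q.2.2 l))).1
      rw [h] at h1
      exact Finset.disjoint_left.1 hdis h1 h2
  have hinj : Set.InjOn Φ (Qj A j N ×ˢ (Set.univ : Set ((Fin m → Fin s) × (Fin m → Fin s)))) := by
    rintro ⟨p, α, β⟩ - ⟨p', α', β'⟩ - h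
    have h1 : ∀ t, QJB_g p (fun a => f p (α a)) (fun a => f' p (β a)) t =
        QJB_g p' (fun a => f p' (α' a)) (fun a => f' p' (β' a)) t := by
      intro t
      have := congrFun h (σ.symm t)
      simpa [Φ] using this
    have hpp : p = p' := by
      refine Prod.ext (funext fun a => ?_) (funext fun a => ?_)
      · exact h1 (Sum.inl (Sum.inl a))
      · exact h1 (Sum.inr (Sum.inl a))
    subst hpp
    have hα : α = α' := funext fun a => hf1 p (h1 (Sum.inl (Sum.inr a)))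
    have hβ : β = β' := funext fun a => hf1' p (h1 (Sum.inr (Sum.inr a)))
    rw [hα, hβ]
  have hfin2 : (Qj A j N ×ˢ (Set.univ : Set ((Fin m → Fin s) × (Fin m → Fin s)))).Finite :=
    Set.Finite.of_injOn hmaps hinj hfin
  have hfin3 : (Qj A j N).Finite := by
    have h0 : Nonempty ((Fin m → Fin s) × (Fin m → Fin s)) := ⟨(fun _ => ⟨0, hs⟩, fun _ => ⟨0, hs⟩)⟩
    have h1 := hfin2.image Prod.fst
    rwa [Set.fst_image_prod _ Set.univ_nonempty] at h1
  refine ⟨hfin3, ?_⟩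
  have h2 := Set.ncard_le_ncard_of_injOn Φ hmaps hinj hfin
  rw [Set.ncard_prod] at h2
  have h3 : (Set.univ : Set ((Fin m → Fin s) × (Fin m → Fin s))).ncard = s ^ m * s ^ m := by
    rw [Set.ncard_univ, Nat.card_prod, Nat.card_eq_fintype_card]
    simp
  rw [h3] at h2
  exact h2.trans hcard

theorem QJB : QJB_stmt := by
  classical
  intro k hk A ⟨K, hK⟩ ⟨c, n0, hc, hden⟩ j hj
  obtain ⟨m, rfl⟩ : ∃ m, k = j + m := ⟨k - j, by omega⟩
  set k := j + m with hkdef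
  have hk0 : (0 : ℝ) < k := by exact_mod_cast hk
  set N1 : ℕ := max (max n0 1) ⌈((8 * k + 2) / c : ℝ) ^ (2 * k)⌉₊ with hN1
  have hN1pos : 1 ≤ N1 := le_trans (le_max_right n0 1) (le_max_left _ _)
  set C1 : ℝ := (K * (m + 1) : ℕ) / (c / 4) ^ (2 * m) + 1 with hC1
  have hC1pos : 0 < C1 := by positivity
  -- large `N`
  have large : ∀ N : ℕ, N1 ≤ N → (Qj A j N).Finite ∧ ((Qj A j N).ncard : ℝ) ≤ C1 * (N : ℝ) ^ ((j : ℝ) / (k : ℝ)) := by
    intro N hN
    have hN0 : n0 ≤ N := le_trans (le_trans (le_max_left n0 1) (le_max_left _ _)) hN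
    have hNp : 1 ≤ N := hN1pos.trans hN
    have hNr : (0 : ℝ) < N := by exact_mod_cast hNp
    set u : ℝ := (N : ℝ) ^ ((1 : ℝ) / ((2 * k : ℕ) : ℝ)) with hu
    have hu0 : 0 < u := Real.rpow_pos_of_pos hNr _
    have hu2k : u ^ (2 * k) = N := by
      rw [hu, ← Real.rpow_natCast, ← Real.rpow_mul hNr.le, one_div_mul_cancel, Real.rpow_one]
      exact_mod_cast (by omega : 2 * k ≠ 0)
    have hbig : (8 * k + 2 : ℝ) ≤ c * u := by
      have h1 : ((8 * k + 2) / c : ℝ) ^ (2 * k) ≤ u ^ (2 * k) := by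
        rw [hu2k]
        exact (Nat.le_ceil _).trans (by exact_mod_cast (le_max_right _ _).trans hN)
      have h2 : (8 * k + 2) / c ≤ u := le_of_pow_le_pow_left₀ (by omega : 2 * k ≠ 0) hu0.le h1
      rw [div_le_iff₀ hc] at h2
      linarith
    have hFfin : (A ∩ Set.Icc 1 N).Finite := (Set.finite_Icc 1 N).subset Set.inter_subset_right
    set F := hFfin.toFinset with hF
    have ha : c * u ≤ (F.card : ℝ) := by
      have := hden N hN0
      rw [Set.ncard_eq_toFinset_card _ hFfin] at this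
      exact this
    obtain ⟨F1, hF1sub, hF1card⟩ := Finset.exists_subset_card_eq (Nat.div_le_self F.card 2)
    have hFmem : ∀ x ∈ F, x ∈ A ∧ x ≤ N := fun x hx => by
      have := hFfin.mem_toFinset.1 hx
      exact ⟨this.1, this.2.2⟩
    have hF2card : F.card / 2 ≤ (F \ F1).card := by
      rw [Finset.card_sdiff_of_subset hF1sub, hF1card]
      omega
    have hFbig : 8 * k + 2 ≤ F.card := by exact_mod_cast hbig.trans ha
    have hs1 : 1 ≤ F.card / 2 - 2 * k := by omega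
    obtain ⟨q1, q2⟩ := QJB_count (j := j) (m := m) (n := 2 * k) (s := F.card / 2 - 2 * k) (by omega) A N K hNp hK F1 (F \ F1)
      (fun x hx => hFmem x (hF1sub hx)) (fun x hx => hFmem x (Finset.sdiff_subset hx)) Finset.disjoint_sdiff hs1
      (by omega) (by omega)
    refine ⟨q1, ?_⟩
    set s := F.card / 2 - 2 * k with hs
    have hsr : c / 4 * u ≤ (s : ℝ) := by
      have h1 : F.card ≤ 4 * s := by omega
      have h2 : (F.card : ℝ) ≤ 4 * s := by exact_mod_cast h1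
      linarith
    have hpow : (c / 4 * u) ^ (2 * m) ≤ ((s ^ m * s ^ m : ℕ) : ℝ) := by
      push_cast
      rw [← pow_add, ← two_mul]
      exact pow_le_pow_left₀ (by positivity) hsr _
    have hq : ((Qj A j N).ncard : ℝ) * (c / 4 * u) ^ (2 * m) ≤ (K * (m + 1) : ℕ) * N := by
      calc ((Qj A j N).ncard : ℝ) * (c / 4 * u) ^ (2 * m) ≤ ((Qj A j N).ncard : ℝ) * ((s ^ m * s ^ m : ℕ) : ℝ) :=
            mul_le_mul_of_nonneg_left hpow (Nat.cast_nonneg _)
        _ ≤ (K * (m + 1) : ℕ) * N := by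
            rw [← Nat.cast_mul, ← Nat.cast_mul, Nat.cast_le]
            calc _ ≤ K * ((m + 1) * N) := q2
              _ = K * (m + 1) * N := by ring
    have hum : u ^ (2 * m) * (N : ℝ) ^ ((j : ℝ) / (k : ℝ)) = N := by
      rw [hu, ← Real.rpow_natCast, ← Real.rpow_mul hNr.le, ← Real.rpow_add hNr]
      have : (1 : ℝ) / ((2 * k : ℕ) : ℝ) * ((2 * m : ℕ) : ℝ) + (j : ℝ) / (k : ℝ) = 1 := by
        push_cast
        have hk2 : (k : ℝ) = j + m := by rw [hkdef]; push_cast; ring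
        rw [hk2] at hk0 ⊢
        field_simp
        ring
      rw [this, Real.rpow_one]
    have hup : 0 < (c / 4 * u) ^ (2 * m) := by positivity
    have hle : ((Qj A j N).ncard : ℝ) ≤ (K * (m + 1) : ℕ) / (c / 4) ^ (2 * m) * (N : ℝ) ^ ((j : ℝ) / (k : ℝ)) := by
      rw [← le_div_iff₀ hup] at hq
      refine hq.trans (le_of_eq ?_)
      rw [mul_pow]
      have hu3 : u ^ (2 * m) ≠ 0 := by positivity
      have hc3 : (c / 4) ^ (2 * m) ≠ 0 := by positivity
      rw [div_mul_eq_mul_div, div_eq_div_iff (mul_ne_zero hc3 hu3) hc3]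
      calc ((K * (m + 1) : ℕ) : ℝ) * N * (c / 4) ^ (2 * m)
          = ((K * (m + 1) : ℕ) : ℝ) * (u ^ (2 * m) * (N : ℝ) ^ ((j : ℝ) / (k : ℝ))) * (c / 4) ^ (2 * m) := by rw [hum]
        _ = _ := by ring
    refine hle.trans ?_
    refine mul_le_mul_of_nonneg_right ?_ (Real.rpow_nonneg hNr.le _)
    rw [hC1]
    linarith
  refine ⟨C1 * (N1 : ℝ) ^ ((j : ℝ) / (k : ℝ)), by positivity, fun N hN => ?_⟩
  obtain ⟨h1, h2⟩ := large (max N N1) (le_max_right _ _)
  have hsub : Qj A j N ⊆ Qj A j (max N N1) := by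
    rintro p ⟨a1, a2, a3, a4⟩
    exact ⟨a1, a2, a3, a4.trans (by exact_mod_cast le_max_left N N1)⟩
  refine ⟨h1.subset hsub, ?_⟩
  have h3 : ((Qj A j N).ncard : ℝ) ≤ ((Qj A j (max N N1)).ncard : ℝ) := by
    exact_mod_cast Set.ncard_le_ncard hsub h1
  refine (h3.trans h2).trans ?_
  rw [mul_assoc]
  refine mul_le_mul_of_nonneg_left ?_ hC1pos.le
  rw [← Real.mul_rpow (Nat.cast_nonneg _) (Nat.cast_nonneg _)]
  refine Real.rpow_le_rpow (Nat.cast_nonneg _) ?_ (by positivity)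
  rw [← Nat.cast_mul, Nat.cast_le]
  exact max_le (Nat.le_mul_of_pos_left N hN1pos) (Nat.le_mul_of_pos_right N1 hN)

end Pool.Agent.OB
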